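import Pool.Agent.H8.TD.Targets
import Pool.Agent.H14.ZA.DIM

/-!
# Zariski dense orbits in dimension three: row DLB, lower bound for the dimension of a space
of sections
-/

set_option autoImplicit false

open MvPolynomial
open Pool.Agent.H12.ZD (pmap v O Res DenseOrbit NoInv)
open Pool.Agent.H18.HIT
open Pool.Agent.H8.ZA (HFam Const NA sz)
open Pool.Agent.H8.TD

namespace Pool.Agent.H52.TD

section

variable {k K : Type} [Field k] [Field K] [Algebra k K] {a b : ℕ} (A : Fin a → K) (B : Fin b → K)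

/-- the generators -/
def gens (n l : ℕ) : Set K := {q | ∃ (α : Fin a → ℕ) (β : Fin b → ℕ), ∑ i, α i ≤ n ∧
  ∑ i, β i ≤ l ∧ q = (∏ i, A i ^ α i) * ∏ i, B i ^ β i}

theorem gens_finite (n l : ℕ) : (gens A B n l).Finite := by
  have h1 : (Set.Iic (fun _ : Fin a => n)).Finite := Set.finite_Iic _
  have h2 : (Set.Iic (fun _ : Fin b => l)).Finite := Set.finite_Iic _
  refine ((h1.prod h2).image (fun p => (∏ i, A i ^ p.1 i) * ∏ i, B i ^ p.2 i)).subset ?_
  rintro q ⟨α, β, hα, hβ, rfl⟩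
  refine ⟨(α, β), ⟨?_, ?_⟩, rfl⟩
  · intro i
    exact (Finset.single_le_sum (f := α) (fun _ _ => Nat.zero_le _) (Finset.mem_univ i)).trans hα
  · intro i
    exact (Finset.single_le_sum (f := β) (fun _ _ => Nat.zero_le _) (Finset.mem_univ i)).trans hβ

theorem Wsp_finite (n l : ℕ) : Module.Finite k (Wsp k A B n l) :=
  Module.Finite.span_of_finite k (gens_finite A B n l)

theorem Wsp_mono {n n' l l' : ℕ} (hn : n ≤ n') (hl : l ≤ l') : Wsp k A B n l ≤ Wsp k A B n' l' :=
  Submodule.span_mono (by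
    rintro q ⟨α, β, h1, h2, rfl⟩
    exact ⟨α, β, h1.trans hn, h2.trans hl, rfl⟩)

theorem Wsp_mul {n n' l l' : ℕ} {u v : K} (hu : u ∈ Wsp k A B n l) (hv : v ∈ Wsp k A B n' l') :
    u * v ∈ Wsp k A B (n + n') (l + l') := by
  have h := Submodule.mul_mem_mul hu hv
  unfold Wsp at h ⊢
  rw [Submodule.span_mul_span] at h
  refine Submodule.span_mono ?_ h
  rintro _ ⟨_, ⟨α, β, h1, h2, rfl⟩, _, ⟨α', β', h1', h2', rfl⟩, rfl⟩
  refine ⟨α + α', β + β', ?_, ?_, ?_⟩
  · simp only [Pi.add_apply, Finset.sum_add_distrib]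
    omega
  · simp only [Pi.add_apply, Finset.sum_add_distrib]
    omega
  · simp only [Pi.add_apply, pow_add, Finset.prod_mul_distrib]
    ring

theorem Wsp_one : (1 : K) ∈ Wsp k A B 0 0 :=
  Submodule.subset_span ⟨0, 0, by simp, by simp, by simp⟩

theorem Wsp_A (i : Fin a) : A i ∈ Wsp k A B 1 0 := by
  refine Submodule.subset_span ⟨Pi.single i 1, 0, ?_, by simp, ?_⟩
  · rw [Finset.sum_pi_single']
    simp
  · rw [Finset.prod_eq_single i]
    · simp
    · intro j _ hj
      rw [Pi.single_eq_of_ne hj, pow_zero]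
    · intro h
      exact absurd (Finset.mem_univ i) h

theorem Wsp_B (i : Fin b) : B i ∈ Wsp k A B 0 1 := by
  refine Submodule.subset_span ⟨0, Pi.single i 1, by simp, ?_, ?_⟩
  · rw [Finset.sum_pi_single']
    simp
  · rw [Finset.prod_eq_single (s := Finset.univ) (f := fun j => B j ^ (Pi.single i 1 : Fin b → ℕ) j)
      i]
    · simp
    · intro j _ hj
      rw [Pi.single_eq_of_ne hj, pow_zero]
    · intro h
      exact absurd (Finset.mem_univ i) h

theorem Wsp_lcA (s : Fin a → k) : lc s A ∈ Wsp k A B 1 0 :=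
  Submodule.sum_mem _ (fun i _ => Submodule.smul_mem _ _ (Wsp_A A B i))

theorem Wsp_lcB (t : Fin b → k) : lc t B ∈ Wsp k A B 0 1 :=
  Submodule.sum_mem _ (fun i _ => Submodule.smul_mem _ _ (Wsp_B A B i))

theorem Wsp_powA {x : K} (hx : x ∈ Wsp k A B 1 0) (i : ℕ) : x ^ i ∈ Wsp k A B i 0 := by
  induction i with
  | zero =>
    rw [pow_zero]
    exact Wsp_one A B
  | succ i ih =>
    have h := Wsp_mul A B ih hx
    rw [Nat.add_zero] at h
    rw [pow_succ]
    exact h

theorem Wsp_powB {x : K} (hx : x ∈ Wsp k A B 0 1) (i : ℕ) : x ^ i ∈ Wsp k A B 0 i := by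
  induction i with
  | zero =>
    rw [pow_zero]
    exact Wsp_one A B
  | succ i ih =>
    have h := Wsp_mul A B ih hx
    rw [Nat.add_zero] at h
    rw [pow_succ]
    exact h

theorem Wsp_closure {z : K} (hz : z ∈ Submonoid.closure (Set.range A ∪ Set.range B)) :
    ∃ n, z ∈ Wsp k A B n n := by
  induction hz using Submonoid.closure_induction with
  | mem z hz =>
    rcases hz with ⟨i, rfl⟩ | ⟨i, rfl⟩
    · exact ⟨1, Wsp_mono A B le_rfl (Nat.zero_le _) (Wsp_A A B i)⟩
    · exact ⟨1, Wsp_mono A B (Nat.zero_le _) le_rfl (Wsp_B A B i)⟩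
  | one => exact ⟨0, Wsp_one A B⟩
  | mul u v _ _ hu hv =>
    obtain ⟨n, hn⟩ := hu
    obtain ⟨m, hm⟩ := hv
    exact ⟨n + m, Wsp_mul A B hn hm⟩

/-- monomials in algebraically independent elements of a subfield -/
theorem mono_indep {w : Fin 3 → K} (hw : AlgebraicIndependent k w) (F : IntermediateField k K)
    (hF : ∀ i, w i ∈ F) : LinearIndependent k
      (fun e : Fin 3 →₀ ℕ => (⟨∏ i, w i ^ e i, prod_mem fun i _ => pow_mem (hF i) _⟩ : F)) := by
  apply LinearIndependent.of_comp F.val.toLinearMap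
  have h1 := (basisMonomials (Fin 3) k).linearIndependent.map' (aeval w).toLinearMap
    (LinearMap.ker_eq_bot.2 hw)
  have h2 : (F.val.toLinearMap ∘ fun e : Fin 3 →₀ ℕ =>
      (⟨∏ i, w i ^ e i, prod_mem fun i _ => pow_mem (hF i) _⟩ : F)) =
      (aeval w).toLinearMap ∘ (basisMonomials (Fin 3) k) := by
    funext e
    change (∏ i, w i ^ e i) = aeval w ((basisMonomials (Fin 3) k) e)
    rw [coe_basisMonomials, aeval_monomial, map_one, one_mul,
      Finsupp.prod_fintype _ _ (fun i => pow_zero _)]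
  rw [h2]
  exact h1

/-- exponents -/
noncomputable def ee (i j j' : ℕ) : Fin 3 →₀ ℕ := Finsupp.equivFunOnFinite.symm ![i, j, j']

theorem ee_inj {i j j' m n n' : ℕ} (h : ee i j j' = ee m n n') : i = m ∧ j = n ∧ j' = n' := by
  have h0 : ee i j j' 0 = ee m n n' 0 := by rw [h]
  have h1 : ee i j j' 1 = ee m n n' 1 := by rw [h]
  have h2 : ee i j j' 2 = ee m n n' 2 := by rw [h]
  exact ⟨h0, h1, h2⟩

theorem ee_prod (w : Fin 3 → K) (i j j' : ℕ) :
    ∏ m, w m ^ ee i j j' m = w 0 ^ i * w 1 ^ j * w 2 ^ j' := by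
  rw [Fin.prod_univ_three]
  rfl

theorem indep_of_trdeg (htr : Algebra.trdeg k K = 3) (w : Fin 3 → K)
    (hfin : Algebra.IsAlgebraic (IntermediateField.adjoin k (Set.range w)) K) :
    AlgebraicIndependent k w := by
  have halg3 : Algebra.IsAlgebraic (Algebra.adjoin k (Set.range w)) K :=
    IntermediateField.isAlgebraic_adjoin_iff_top.1 hfin
  exact (Algebra.IsAlgebraic.isTranscendenceBasis_of_le_trdeg_of_finite k w
    (by rw [htr, Cardinal.mk_fin]; norm_num)).1

end

section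

variable {k K : Type} [Field k] [Field K] [Algebra k K] {a b : ℕ}

/-- a basis of `K` over a subfield, consisting of products -/
theorem exists_omega (F : IntermediateField k K) [FiniteDimensional F K] (A : Fin a → K)
    (B : Fin b → K)
    (hgen : IntermediateField.adjoin k (Set.range A ∪ Set.range B) = ⊤) :
    ∃ ω : Fin (Module.finrank F K) → K, LinearIndependent F ω ∧
      ∀ p, ω p ∈ Submonoid.closure (Set.range A ∪ Set.range B) := by
  classical
  have h1 : IntermediateField.adjoin F (Set.range A ∪ Set.range B) = ⊤ := by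
    rw [eq_top_iff]
    intro z _
    have h2 : z ∈ IntermediateField.adjoin k (Set.range A ∪ Set.range B) := by
      rw [hgen]
      exact IntermediateField.mem_top
    have h3 : IntermediateField.adjoin k (Set.range A ∪ Set.range B) ≤
        (IntermediateField.adjoin F (Set.range A ∪ Set.range B)).restrictScalars k := by
      rw [IntermediateField.adjoin_le_iff]
      intro u hu
      exact IntermediateField.subset_adjoin F _ hu
    exact h3 h2
  have h4 : Submodule.span F (Submonoid.closure (Set.range A ∪ Set.range B) : Set K) = ⊤ := by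
    rw [← Algebra.adjoin_eq_span, ← IntermediateField.adjoin_toSubalgebra, h1]
    rfl
  obtain ⟨c, hcM, hspan, hli⟩ := exists_linearIndependent F
    (Submonoid.closure (Set.range A ∪ Set.range B) : Set K)
  have hcf : c.Finite := hli.setFinite
  haveI : Fintype c := hcf.fintype
  let bas : Module.Basis c F K := Module.Basis.mk hli (by
    rw [Subtype.range_coe, hspan, h4])
  have hcard : Module.finrank F K = Fintype.card c := Module.finrank_eq_card_basis bas
  let e : c ≃ Fin (Module.finrank F K) := Fintype.equivFinOfCardEq hcard.symm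
  refine ⟨fun p => (e.symm p : K), hli.comp e.symm e.symm.injective, ?_⟩
  intro p
  exact hcM (e.symm p).2

end

theorem pf_DLB : T_DLB := by
  intro k K _ _ _ a b A B s t t' htr hgen hq
  classical
  let w : Fin 3 → K := ![lc s A, lc t B, lc t' B]
  have hw : Set.range w = {lc s A, lc t B, lc t' B} := by
    ext z
    simp only [Set.mem_range, Set.mem_insert_iff, Set.mem_singleton_iff]
    constructor
    · rintro ⟨i, rfl⟩
      fin_cases i
      · exact Or.inl rfl
      · exact Or.inr (Or.inl rfl)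
      · exact Or.inr (Or.inr rfl)
    · rintro (h | h | h)
      · exact ⟨0, h.symm⟩
      · exact ⟨1, h.symm⟩
      · exact ⟨2, h.symm⟩
  rw [← hw] at hq ⊢
  unfold dg at hq ⊢
  haveI : FiniteDimensional (IntermediateField.adjoin k (Set.range w)) K :=
    FiniteDimensional.of_finrank_pos hq
  have hAI : AlgebraicIndependent k w := indep_of_trdeg htr w inferInstance
  obtain ⟨ω, hω, hωM⟩ := exists_omega (IntermediateField.adjoin k (Set.range w)) A B hgen
  have hn0 : ∀ p, ∃ n, ω p ∈ Wsp k A B n n := fun p => Wsp_closure A B (hωM p)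
  choose m hm using hn0
  have hF : ∀ i, w i ∈ IntermediateField.adjoin k (Set.range w) :=
    fun i => IntermediateField.subset_adjoin k _ ⟨i, rfl⟩
  have hli1 := mono_indep hAI _ hF
  have hli2 := linearIndependent_smul hli1 hω
  refine ⟨∑ p, m p, ?_⟩
  intro n l
  generalize hqd : Module.finrank (IntermediateField.adjoin k (Set.range w)) K = q at *
  let g : {x // x ∈ Pool.Agent.H14.ZA.idx n q l} → (Fin 3 →₀ ℕ) × Fin q :=
    fun x => (ee x.1.1 x.1.2.2.1 x.1.2.2.2, ⟨x.1.2.1, (Pool.Agent.H14.ZA.mem_idx.1 x.2).2.1⟩)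
  have hg : Function.Injective g := by
    rintro ⟨⟨i, p, ⟨j, j'⟩⟩, hx⟩ ⟨⟨i1, p1, ⟨j1, j1'⟩⟩, hx1⟩ h
    have h1 := congrArg Prod.fst h
    have h2 := congrArg Prod.snd h
    obtain ⟨e1, e2, e3⟩ := ee_inj h1
    have e4 : p = p1 := congrArg Fin.val h2
    apply Subtype.ext
    change i = i1 at e1
    change j = j1 at e2
    change j' = j1' at e3
    subst e1; subst e2; subst e3; subst e4
    rfl
  have hli3 := hli2.comp g hg
  have h5 := finrank_span_eq_card hli3
  rw [Fintype.card_coe, Pool.Agent.H14.ZA.card_idx] at h5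
  haveI := Wsp_finite (k := k) A B (n + ∑ p, m p) (l + ∑ p, m p)
  have h6 : q * ((n + 1) * ((l + 1) * (l + 2) / 2)) = (n + 1) * q * ((l + 1) * (l + 2) / 2) := by
    ring
  rw [h6, ← h5]
  apply Submodule.finrank_mono
  rw [Submodule.span_le]
  rintro _ ⟨⟨⟨i, p, ⟨j, j'⟩⟩, hx⟩, rfl⟩
  obtain ⟨hi, hp, hj⟩ := Pool.Agent.H14.ZA.mem_idx.1 hx
  have h7 : w 0 ^ i ∈ Wsp k A B i 0 := Wsp_powA A B (Wsp_lcA A B s) i
  have h8 : w 1 ^ j ∈ Wsp k A B 0 j := Wsp_powB A B (Wsp_lcB A B t) j
  have h9 : w 2 ^ j' ∈ Wsp k A B 0 j' := Wsp_powB A B (Wsp_lcB A B t') j'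
  have h10 := Wsp_mul A B (Wsp_mul A B (Wsp_mul A B h7 h8) h9) (hm ⟨p, hp⟩)
  have h11 : m ⟨p, hp⟩ ≤ ∑ p, m p :=
    Finset.single_le_sum (f := m) (fun _ _ => Nat.zero_le _) (Finset.mem_univ (⟨p, hp⟩ : Fin q))
  have hi' : i ≤ n := hi
  have hj' : j + j' ≤ l := hj
  have h12 := Wsp_mono (k := k) A B (n := i + 0 + 0 + m ⟨p, hp⟩) (n' := n + ∑ p, m p)
    (l := 0 + j + j' + m ⟨p, hp⟩) (l' := l + ∑ p, m p) (by omega) (by omega) h10
  have h13 : (((fun p : (Fin 3 →₀ ℕ) × Fin q =>
      (⟨∏ i, w i ^ p.1 i, prod_mem fun i _ => pow_mem (hF i) _⟩ :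
        IntermediateField.adjoin k (Set.range w)) • ω p.2) ∘ g) ⟨(i, p, ⟨j, j'⟩), hx⟩) =
      w 0 ^ i * w 1 ^ j * w 2 ^ j' * ω ⟨p, hp⟩ := by
    change (∏ m, w m ^ ee i j j' m) * ω ⟨p, hp⟩ = _
    rw [ee_prod]
  change (((fun p : (Fin 3 →₀ ℕ) × Fin q =>
      (⟨∏ i, w i ^ p.1 i, prod_mem fun i _ => pow_mem (hF i) _⟩ :
        IntermediateField.adjoin k (Set.range w)) • ω p.2) ∘ g) ⟨(i, p, ⟨j, j'⟩), hx⟩) ∈ _
  rw [h13]
  exact h12

end Pool.Agent.H52.TD
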