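import Pool.Agent.H8.TD.Targets

/-!
# Zariski dense orbits in dimension three: row PBK, pullback of intersection numbers
-/

set_option autoImplicit false

open MvPolynomial
open Pool.Agent.H12.ZD (pmap v O Res DenseOrbit NoInv)
open Pool.Agent.H18.HIT
open Pool.Agent.H8.ZA (HFam Const NA sz)
open Pool.Agent.H8.TD

namespace Pool.Agent.H52.TD

theorem dg_image {k K : Type} [Field k] [Field K] [Algebra k K] (τ : K →ₐ[k] K) (S : Set K) :
    dg k (τ '' S) = Module.finrank τ.fieldRange K * dg k S := by
  unfold dg
  have h1 : IntermediateField.adjoin k (τ '' S) = (IntermediateField.adjoin k S).map τ :=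
    (IntermediateField.adjoin_map k S τ).symm
  have h2 : (IntermediateField.adjoin k S).map τ ≤ (⊤ : IntermediateField k K).map τ :=
    IntermediateField.map_mono τ le_top
  have h3 := IntermediateField.relfinrank_mul_finrank_top h2
  have h4 := IntermediateField.relfinrank_map_map (IntermediateField.adjoin k S) ⊤ τ
  rw [IntermediateField.relfinrank_top_right] at h4
  rw [h1, ← h3, h4, ← AlgHom.fieldRange_eq_map, mul_comm]

theorem pf_PBK : T_PBK := by
  intro k K _ _ _ τ n S
  induction n with
  | zero =>
    rw [pow_zero, one_mul, Function.iterate_zero, Set.image_id]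
  | succ n ih =>
    rw [Function.iterate_succ', Set.image_comp, dg_image, ih, pow_succ]
    ring

end Pool.Agent.H52.TD
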